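import Pool.Agent.Y6.Stm2
import Pool.Agent.H459R3.NS.Phys2
import Pool.Agent.H356R3.NS.Four2

/-!
Fourier coefficients of smooth periodic divergence free fields.
-/

open MeasureTheory Set
open scoped ContDiff

set_option autoImplicit false

namespace Pool.Agent.Y474.NSData

open Pool.Agent.H356R3.NS hiding K sq
open Pool.Agent.Y6

lemma sp_comp {v : R3 → R3} (hv : Dat v) (i : Fin 3) : H459R3.NS.SP (fun x => v x i) where
  smooth := (contDiff_apply ℝ ℝ i).comp hv.smooth
  per := fun j x => by simp only [hv.per x j]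

lemma ex_eq_ee (k : K) (x : R3) : ex k x = H459R3.NS.ee k x := by
  unfold ex H459R3.NS.ee H459R3.NS.ph
  push_cast
  rfl

lemma fc_eq_fr (v : R3 → R3) (k : K) (i : Fin 3) : fc v k i = H459R3.NS.fr (fun x => v x i) k := by
  unfold H459R3.NS.fr H459R3.NS.fc
  rw [fc_eq]
  refine integral_congr_ae (Filter.Eventually.of_forall fun x => ?_)
  simp only [ex_eq_ee]
  ring

lemma qk_le (k : K) : qk k ≤ 3 * (H459R3.NS.N k : ℝ) ^ 2 := by
  have h : ∀ j, (k j : ℝ) ^ 2 ≤ (H459R3.NS.N k : ℝ) ^ 2 := by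
    intro j
    have h1 := (H459R3.NS.N_le_iff k (H459R3.NS.N k)).1 le_rfl j
    have h2 : |(k j : ℝ)| ≤ H459R3.NS.N k := by exact_mod_cast h1
    rw [← sq_abs (k j : ℝ)]
    exact pow_le_pow_left₀ (abs_nonneg _) h2 2
  have h0 : qk k = ∑ i, (k i : ℝ) ^ 2 := rfl
  rw [h0]
  calc ∑ i, (k i : ℝ) ^ 2 ≤ ∑ _i : Fin 3, (H459R3.NS.N k : ℝ) ^ 2 := Finset.sum_le_sum fun i _ => h i
    _ = _ := by simp

theorem t_data : St_data := by
  intro v hv
  have h1 : ContDiff ℝ 1 v := hv.smooth.of_le (by norm_cast)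
  refine ⟨fc_sym v, fc_div h1 hv.per hv.div, ?_, ?_⟩
  · intro s
    have hs : ∀ i : Fin 3, Summable fun k => qk k ^ s * ‖fc v k i‖ ^ 2 := by
      intro i
      obtain ⟨C, hC⟩ := H459R3.NS.norm_fr_le (sp_comp hv i)
      have hr := (H459R3.NS.rap_fr (sp_comp hv i)) (2 * s)
      refine Summable.of_nonneg_of_le (fun k => ?_) (fun k => ?_) (hr.mul_left (3 ^ s * C))
      · have : 0 ≤ qk k := Finset.sum_nonneg fun i _ => sq_nonneg _
        positivity
      · have h0 : 0 ≤ qk k := Finset.sum_nonneg fun i _ => sq_nonneg _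
        have h2 : qk k ^ s ≤ (3 * (H459R3.NS.N k : ℝ) ^ 2) ^ s := pow_le_pow_left₀ h0 (qk_le k) s
        have h3 := hC k
        rw [fc_eq_fr]
        have h4 : 0 ≤ ‖H459R3.NS.fr (fun x => v x i) k‖ := norm_nonneg _
        calc qk k ^ s * ‖H459R3.NS.fr (fun x => v x i) k‖ ^ 2
            = qk k ^ s * (‖H459R3.NS.fr (fun x => v x i) k‖ * ‖H459R3.NS.fr (fun x => v x i) k‖) := by
              ring
          _ ≤ (3 * (H459R3.NS.N k : ℝ) ^ 2) ^ s * (C * ‖H459R3.NS.fr (fun x => v x i) k‖) := by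
              gcongr
          _ = _ := by rw [mul_pow, ← pow_mul]; ring
    have h2 : (fun k => qk k ^ s * en2 (fc v k)) = fun k => ∑ i, qk k ^ s * ‖fc v k i‖ ^ 2 := by
      funext k
      unfold en2
      rw [Finset.mul_sum]
    rw [h2]
    exact summable_sum fun i _ => hs i
  · intro x i
    have h2 := H459R3.NS.S_fr (sp_comp hv i) x
    have h3 : ∑' k, fc v k i * ex k x = H459R3.NS.S (H459R3.NS.fr (fun x => v x i)) x := by
      unfold H459R3.NS.S
      refine tsum_congr fun k => ?_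
      rw [fc_eq_fr, ex_eq_ee]
    rw [h3, h2, Complex.ofReal_re]

end Pool.Agent.Y474.NSData
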