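import Pool.Agent.Y474.QTZ6a

set_option autoImplicit false

/-!
Project QT, task HZ6 (polynomial in the height), part a: the mean value in the box.
-/

namespace Pool.Agent.Y474.QTHZ6

open Complex MeasureTheory Finset
open Pool.Agent.Y19.QT
open Pool.Agent.Y474.QTZ6 (YY one_le_log card_sqf)
open Pool.Agent.H306R2.RZ (js Gk)
open scoped ENNReal

noncomputable section

/-- the mean value in the box -/
theorem mean_boxH {Q : ℕ} {lam : ℕ → ℝ} (T : Twists Q lam)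
    (Z1 : ∃ C : ℝ, 0 < C ∧
      ∀ (d : ℤ) (Y : ℕ) (Z σ η t : ℝ), Squarefree d → 1 ≤ Y → 1 ≤ Z → 1 / 2 ≤ σ → σ ≤ 1 →
        0 < η → η ≤ 1 / 4 →
        ‖T.Lq d (σ + η + t * I) * Mol Q lam Y d (σ + η + t * I) - 1‖ ≤
          ‖∑' n : ℕ, if Y < n then ((cY Q lam Y n * js d n * Real.exp (-(n / Z)) : ℝ) : ℂ) *
            (n : ℂ) ^ (-(σ + η + t * I : ℂ)) else 0‖ + 1 / Z +
          C / η * Z ^ (-η) * ∫ y : ℝ, ‖T.Lq d (σ + y * I)‖ * ‖Mol Q lam Y d (σ + y * I)‖ *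
            Real.exp (-|y - t|))
    (Z2 : ∃ (C : ℝ) (A : ℕ), 0 < C ∧
      ∀ (X Y : ℕ) (Z δ : ℝ) (s : ℂ), 3 ≤ X → 1 ≤ Y → (Y : ℝ) ^ 4 ≤ X → 1 ≤ Z → Z ^ 4 ≤ X →
        0 < δ → δ ≤ 1 / 4 → 1 / 2 + δ ≤ s.re →
        ∑ d ∈ sqf X, ‖∑' n : ℕ, if Y < n then ((cY Q lam Y n * js d n * Real.exp (-(n / Z)) : ℝ) : ℂ) *
            (n : ℂ) ^ (-s) else 0‖ ^ 2 ≤
          C * X * (Y : ℝ) ^ (-δ) * (δ⁻¹) ^ A + C)
    (Z3 : ∃ (C : ℝ) (A B : ℕ), 0 < C ∧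
      ∀ (X Y : ℕ) (σ t : ℝ), 3 ≤ X → 1 ≤ Y → (Y : ℝ) ^ 4 ≤ X → 1 / 2 ≤ σ → σ ≤ 1 →
        ∑ d ∈ sqf X, ∫ y : ℝ, ‖T.Lq d (σ + y * I)‖ * ‖Mol Q lam Y d (σ + y * I)‖ *
          Real.exp (-|y - t|) ≤ C * (1 + |t|) ^ B * X * Real.log X ^ A) :
    ∃ (C : ℝ) (A B : ℕ), 0 < C ∧ ∀ (X : ℕ) (δ U : ℝ) (s : ℂ), 3 ≤ X → 1 / Real.log X ≤ δ →
      δ ≤ 1 / 8 → 0 ≤ U → 1 / 2 + 3 * δ ≤ s.re → s.re ≤ 1 + δ → |s.im| ≤ U + 1 →
      ∑ d ∈ sqf X, ‖T.Lq d s * Mol Q lam (YY X) d s - 1‖ ≤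
        C * (1 + U) ^ B * (X : ℝ) ^ (1 - δ / 4) * Real.log X ^ A := by
  obtain ⟨C1, hC1, Z1⟩ := Z1
  obtain ⟨C2, A2, hC2, Z2⟩ := Z2
  obtain ⟨C3, A3, B, hC3, Z3⟩ := Z3
  refine ⟨3 * (C2 + 1) + 3 + 2 ^ B * C1 * C3, A2 + (A3 + 1), B, by positivity, ?_⟩
  intro X δ U s hX hδ1 hδ2 hU hs1 hs2 hs3
  have hL := one_le_log hX
  set L := Real.log X with hLdef
  have hL0 : 0 < L := by linarith
  have hδ0 : 0 < δ := lt_of_lt_of_le (by positivity) hδ1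
  have hX1 : (1 : ℝ) ≤ X := by
    have : 1 ≤ X := by omega
    exact_mod_cast this
  have hX0 : (0 : ℝ) < X := by linarith
  -- the parameters
  set Z : ℝ := (X : ℝ) ^ (1 / 4 : ℝ) with hZ
  have hZ1 : 1 ≤ Z := Real.one_le_rpow hX1 (by norm_num)
  have hZ4 : Z ^ 4 = X := by
    rw [hZ, ← Real.rpow_natCast, ← Real.rpow_mul hX0.le]
    norm_num
  have hY1 : 1 ≤ YY X := by
    unfold YY
    rw [Nat.one_le_floor_iff]
    exact hZ1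
  have hYZ : (YY X : ℝ) ≤ Z := Nat.floor_le (by positivity)
  have hY4 : (YY X : ℝ) ^ 4 ≤ X := by
    rw [← hZ4]
    exact pow_le_pow_left₀ (Nat.cast_nonneg _) hYZ 4
  have hY1' : (1 : ℝ) ≤ YY X := by exact_mod_cast hY1
  have hYlow : Z / 2 ≤ YY X := by
    have : Z < (YY X : ℝ) + 1 := Nat.lt_floor_add_one _
    linarith
  set W : ℝ := (X : ℝ) ^ (-(δ / 4)) with hW
  have hW0 : 0 < W := by positivity
  have hW1 : W ≤ 1 := Real.rpow_le_one_of_one_le_of_nonpos hX1 (by linarith)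
  have hWW : (X : ℝ) ^ (-(δ / 2)) = W ^ 2 := by
    rw [hW, ← Real.rpow_natCast, ← Real.rpow_mul hX0.le]
    congr 1
    push_cast
    ring
  have hXW : (X : ℝ) ^ (1 - δ / 4) = X * W := by
    rw [sub_eq_add_neg, Real.rpow_add hX0, Real.rpow_one]
  have hXWW : 1 ≤ X * W ^ 2 := by
    rw [← hWW]
    calc (1 : ℝ) ≤ (X : ℝ) ^ (1 + -(δ / 2)) := Real.one_le_rpow hX1 (by linarith)
      _ = X * (X : ℝ) ^ (-(δ / 2)) := by rw [Real.rpow_add hX0, Real.rpow_one]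
  have hZinv : 1 / Z ≤ W := by
    rw [one_div, hZ, ← Real.rpow_neg hX0.le, hW]
    exact Real.rpow_le_rpow_of_exponent_le hX1 (by linarith)
  have hZη : Z ^ (-(2 * δ)) = W ^ 2 := by
    rw [hZ, ← Real.rpow_mul hX0.le, ← hWW]
    congr 1
    ring
  have hYη : (YY X : ℝ) ^ (-(2 * δ)) ≤ 2 * W ^ 2 := by
    have h1 : (YY X : ℝ) ^ (-(2 * δ)) ≤ (Z / 2) ^ (-(2 * δ)) :=
      Real.rpow_le_rpow_of_nonpos (by positivity) hYlow (by linarith)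
    have h2 : (Z / 2) ^ (-(2 * δ)) = Z ^ (-(2 * δ)) * 2 ^ (2 * δ) := by
      rw [Real.div_rpow (by linarith) (by norm_num), Real.rpow_neg (by norm_num : (0 : ℝ) ≤ 2),
        div_inv_eq_mul]
    have h3 : (2 : ℝ) ^ (2 * δ) ≤ 2 := by
      calc (2 : ℝ) ^ (2 * δ) ≤ 2 ^ (1 : ℝ) :=
            Real.rpow_le_rpow_of_exponent_le (by norm_num) (by linarith)
        _ = 2 := Real.rpow_one 2
    rw [h2, hZη] at h1
    nlinarith [sq_nonneg W]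
  have hinv : (2 * δ)⁻¹ ≤ L := by
    rw [inv_le_comm₀ (by positivity) hL0]
    have : L⁻¹ ≤ δ := by rw [← one_div]; exact hδ1
    linarith
  have hinv0 : 0 < (2 * δ)⁻¹ := by positivity
  -- the three parts
  set tail : ℤ → ℂ := fun d => ∑' n : ℕ, if YY X < n then
    ((cY Q lam (YY X) n * js d n * Real.exp (-(n / Z)) : ℝ) : ℂ) * (n : ℂ) ^ (-s) else 0 with htail
  set J : ℤ → ℝ := fun d => ∫ y : ℝ, ‖T.Lq d (((s.re - 2 * δ : ℝ) : ℂ) + y * I)‖ *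
    ‖Mol Q lam (YY X) d (((s.re - 2 * δ : ℝ) : ℂ) + y * I)‖ * Real.exp (-|y - s.im|) with hJ
  have hpt : ∀ d ∈ sqf X, ‖T.Lq d s * Mol Q lam (YY X) d s - 1‖ ≤
      ‖tail d‖ + W + C1 * L * W * J d := by
    intro d hd
    have hsq := (mem_sqf.1 hd).2
    have h1 := Z1 d (YY X) Z (s.re - 2 * δ) (2 * δ) s.im hsq hY1 hZ1 (by linarith) (by linarith)
      (by linarith) (by linarith)
    have e : (((s.re - 2 * δ : ℝ) : ℂ) + ((2 * δ : ℝ) : ℂ) + (s.im : ℂ) * I) = s := by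
      rw [← Complex.ofReal_add, sub_add_cancel]
      exact Complex.re_add_im s
    rw [e] at h1
    have hJ0 : 0 ≤ J d := integral_nonneg fun y => by positivity
    have h2 : C1 / (2 * δ) * Z ^ (-(2 * δ)) * J d ≤ C1 * L * W * J d := by
      apply mul_le_mul_of_nonneg_right _ hJ0
      rw [hZη, div_eq_mul_inv]
      have h3 : W ^ 2 ≤ W := by nlinarith
      have h4 : C1 * (2 * δ)⁻¹ * W ^ 2 ≤ C1 * L * W := by gcongr
      exact h4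
    have h1' : ‖T.Lq d s * Mol Q lam (YY X) d s - 1‖ ≤ ‖tail d‖ + 1 / Z +
        C1 / (2 * δ) * Z ^ (-(2 * δ)) * J d := h1
    linarith [h1', h2, hZinv]
  refine (sum_le_sum hpt).trans ?_
  rw [sum_add_distrib, sum_add_distrib, ← mul_sum, sum_const, nsmul_eq_mul]
  have hcard := card_sqf (X := X) (by omega)
  have hcard0 : (0 : ℝ) ≤ (sqf X).card := Nat.cast_nonneg _
  have hLA2 : 1 ≤ L ^ A2 := one_le_pow₀ hL
  have hLA3 : 1 ≤ L ^ (A3 + 1) := one_le_pow₀ hL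
  have hE1 : 1 ≤ (1 + U) ^ B := one_le_pow₀ (by linarith)
  -- tails
  have t1 : ∑ d ∈ sqf X, ‖tail d‖ ≤ 3 * (C2 + 1) * (X * W) * L ^ A2 := by
    have h1 := Z2 X (YY X) Z (2 * δ) s hX hY1 hY4 hZ1 hZ4.le (by linarith) (by linarith)
      (by linarith)
    have h2 : ∑ d ∈ sqf X, ‖tail d‖ ^ 2 ≤ 3 * C2 * (X * W ^ 2) * L ^ A2 := by
      refine h1.trans ?_
      have h3 : ((2 * δ)⁻¹) ^ A2 ≤ L ^ A2 := pow_le_pow_left₀ hinv0.le hinv A2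
      have h4 : C2 * X * (YY X : ℝ) ^ (-(2 * δ)) * ((2 * δ)⁻¹) ^ A2 ≤
          C2 * X * (2 * W ^ 2) * L ^ A2 := by gcongr
      have h5 : C2 ≤ C2 * (X * W ^ 2) * L ^ A2 := by
        have h6 : 1 ≤ (X * W ^ 2) * L ^ A2 := by nlinarith
        nlinarith
      calc C2 * X * (YY X : ℝ) ^ (-(2 * δ)) * ((2 * δ)⁻¹) ^ A2 + C2
          ≤ C2 * X * (2 * W ^ 2) * L ^ A2 + C2 * (X * W ^ 2) * L ^ A2 := add_le_add h4 h5
        _ = _ := by ring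
    have h3 : (∑ d ∈ sqf X, ‖tail d‖) ^ 2 ≤ (sqf X).card * ∑ d ∈ sqf X, ‖tail d‖ ^ 2 :=
      sq_sum_le_card_mul_sum_sq
    have h4 : (∑ d ∈ sqf X, ‖tail d‖) ^ 2 ≤ (3 * (C2 + 1) * (X * W) * L ^ A2) ^ 2 := by
      refine h3.trans ?_
      have h5 : (0 : ℝ) ≤ ∑ d ∈ sqf X, ‖tail d‖ ^ 2 := sum_nonneg fun d _ => by positivity
      calc ((sqf X).card : ℝ) * ∑ d ∈ sqf X, ‖tail d‖ ^ 2
          ≤ (3 * X) * (3 * C2 * (X * W ^ 2) * L ^ A2) := mul_le_mul hcard h2 h5 (by positivity)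
        _ = 9 * (X * W) ^ 2 * (C2 * L ^ A2) := by ring
        _ ≤ 9 * (X * W) ^ 2 * ((C2 + 1) ^ 2 * (L ^ A2) ^ 2) := by
            apply mul_le_mul_of_nonneg_left _ (by positivity)
            have h6 : C2 ≤ (C2 + 1) ^ 2 := by nlinarith
            have h7 : L ^ A2 ≤ (L ^ A2) ^ 2 := by nlinarith
            exact mul_le_mul h6 h7 (by positivity) (by positivity)
        _ = _ := by ring
    exact (pow_le_pow_iff_left₀ (sum_nonneg fun d _ => norm_nonneg _) (by positivity)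
      (by norm_num)).1 h4
  have t3 : ∑ d ∈ sqf X, J d ≤ C3 * (2 ^ B * (1 + U) ^ B) * X * L ^ A3 := by
    have h1 := Z3 X (YY X) (s.re - 2 * δ) s.im hX hY1 hY4 (by linarith) (by linarith)
    refine h1.trans ?_
    have h2 : (1 + |s.im|) ^ B ≤ 2 ^ B * (1 + U) ^ B := by
      rw [← mul_pow]
      apply pow_le_pow_left₀ (by positivity)
      linarith
    gcongr
  have p1 : 3 * (C2 + 1) * (X * W) * L ^ A2 ≤
      3 * (C2 + 1) * ((1 + U) ^ B * (X * W) * L ^ (A2 + (A3 + 1))) := by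
    rw [pow_add]
    have h1 : X * W * L ^ A2 ≤ (1 + U) ^ B * (X * W) * (L ^ A2 * L ^ (A3 + 1)) := by
      have h2 : 0 ≤ X * W * L ^ A2 := by positivity
      have h3 : 1 ≤ (1 + U) ^ B * L ^ (A3 + 1) := by nlinarith
      calc X * W * L ^ A2 ≤ (X * W * L ^ A2) * ((1 + U) ^ B * L ^ (A3 + 1)) :=
            le_mul_of_one_le_right h2 h3
        _ = _ := by ring
    calc 3 * (C2 + 1) * (X * W) * L ^ A2 = 3 * (C2 + 1) * (X * W * L ^ A2) := by ring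
      _ ≤ _ := mul_le_mul_of_nonneg_left h1 (by positivity)
  have p2 : ((sqf X).card : ℝ) * W ≤ 3 * ((1 + U) ^ B * (X * W) * L ^ (A2 + (A3 + 1))) := by
    rw [pow_add]
    have h3 : 1 ≤ (1 + U) ^ B * (L ^ A2 * L ^ (A3 + 1)) := by
      have : 1 ≤ L ^ A2 * L ^ (A3 + 1) := by nlinarith
      nlinarith
    calc ((sqf X).card : ℝ) * W ≤ 3 * X * W := mul_le_mul_of_nonneg_right hcard hW0.le
      _ ≤ 3 * X * W * ((1 + U) ^ B * (L ^ A2 * L ^ (A3 + 1))) :=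
          le_mul_of_one_le_right (by positivity) h3
      _ = _ := by ring
  have p3 : C1 * L * W * ∑ d ∈ sqf X, J d ≤
      2 ^ B * C1 * C3 * ((1 + U) ^ B * (X * W) * L ^ (A2 + (A3 + 1))) := by
    have h1 : C1 * L * W * ∑ d ∈ sqf X, J d ≤ C1 * L * W * (C3 * (2 ^ B * (1 + U) ^ B) * X * L ^ A3) :=
      mul_le_mul_of_nonneg_left t3 (by positivity)
    refine h1.trans ?_
    have h2 : C1 * L * W * (C3 * (2 ^ B * (1 + U) ^ B) * X * L ^ A3) =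
      2 ^ B * C1 * C3 * ((1 + U) ^ B * (X * W) * L ^ (A3 + 1)) := by ring
    rw [h2, pow_add L A2]
    have h3 : L ^ (A3 + 1) ≤ L ^ A2 * L ^ (A3 + 1) := le_mul_of_one_le_left (by positivity) hLA2
    gcongr
  rw [hXW]
  calc _ ≤ 3 * (C2 + 1) * ((1 + U) ^ B * (X * W) * L ^ (A2 + (A3 + 1))) +
        3 * ((1 + U) ^ B * (X * W) * L ^ (A2 + (A3 + 1))) +
        2 ^ B * C1 * C3 * ((1 + U) ^ B * (X * W) * L ^ (A2 + (A3 + 1))) :=
        add_le_add (add_le_add (t1.trans p1) p2) p3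
    _ = _ := by ring

end

end Pool.Agent.Y474.QTHZ6
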