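import Pool.Agent.Y474.QTZ6
import Pool.Agent.Y474.QTHZ6a
import Pool.Agent.Y369.QTZ1
import Pool.Agent.Y203.QTZ2
import Pool.Agent.Y500.QTZ4
import Pool.Agent.Y203.QTZ6a

set_option autoImplicit false

/-!
Project QT, task HZ6: the density theorem, polynomial in the height.
-/

namespace Pool.Agent.Y474.QTHZ6

open Complex MeasureTheory Finset
open Pool.Agent.Y19.QT
open Pool.Agent.H306R2.RZ (js Gk)
open Pool.Agent.Y474.QTZ6 (YY mem_sqf' card_sqf' sum_windows log_aux log_natAbs overlap ff ff_diff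
  Box mem_Box Box_compact Box_vol)

noncomputable section

theorem count_auxH {X : ℕ} (hX : 3 ≤ X) {U : ℝ} (hU : 0 ≤ U) :
    Real.log (X + 1) + (U + 1) + 1 ≤ 4 * Real.log X * (1 + U) := by
  obtain ⟨h1, h2⟩ := log_aux hX
  nlinarith [mul_nonneg hU (sub_nonneg.2 h1)]

/-- the trivial bound -/
theorem trivial_countH {Q : ℕ} {lam : ℕ → ℝ} (T : Twists Q lam) (C : ℝ) (hC : 0 < C)
    (Z4 : ∀ (d : ℤ) (t : ℝ) (S : Finset ℂ), Squarefree d →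
      (∀ ρ ∈ S, T.Lq d ρ = 0 ∧ 1 / 2 ≤ ρ.re ∧ |ρ.im - t| ≤ 1 / 4) →
      (∀ ρ ∈ S, analyticOrderAt (T.Lq d) ρ ≠ ⊤) ∧
      ∑ ρ ∈ S, ((analyticOrderAt (T.Lq d) ρ).toNat : ℝ) ≤
        C * (Real.log (|(d : ℝ)| + 1) + |t| + 1))
    (X : ℕ) (σ U : ℝ) (S : ℤ → Finset ℂ) (hX : 3 ≤ X) (hσ : 1 / 2 ≤ σ) (hU : 0 ≤ U)
    (hσ2 : (σ - 1 / 2) * Real.log X ≤ 4)
    (hS : ∀ d ∈ sqf X, ∀ ρ ∈ S d, T.Lq d ρ = 0 ∧ σ ≤ ρ.re ∧ |ρ.im| ≤ U) :
    ∑ d ∈ sqf X, ∑ ρ ∈ S d, ((analyticOrderAt (T.Lq d) ρ).toNat : ℝ) ≤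
      96 * C * (1 + U) ^ 2 * (X : ℝ) ^ (1 - 1 / 16 * (σ - 1 / 2)) * Real.log X := by
  have hX3 : (3 : ℝ) ≤ X := by exact_mod_cast hX
  have hX0 : (0 : ℝ) < X := by linarith
  obtain ⟨hL1, -⟩ := log_aux hX
  have hcA := count_auxH hX hU
  have hU4 : 4 * U + 1 ≤ 4 * (1 + U) := by linarith
  have hd : ∀ d ∈ sqf X, ∑ ρ ∈ S d, ((analyticOrderAt (T.Lq d) ρ).toNat : ℝ) ≤
      16 * C * Real.log X * (1 + U) ^ 2 := by
    intro d hd
    have h1 := sum_windows (fun ρ => ((analyticOrderAt (T.Lq d) ρ).toNat : ℝ))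
      (C * (Real.log (X + 1) + (U + 1) + 1)) U hU (S d) (fun ρ hρ => (hS d hd ρ hρ).2.2) (by
        intro t S' ht hS' h
        refine (Z4 d t S' (mem_sqf'.1 hd).2 ?_).2.trans ?_
        · intro ρ hρ
          have := hS d hd ρ (hS' hρ)
          exact ⟨this.1, hσ.trans this.2.1, h ρ hρ⟩
        · have := log_natAbs hd
          gcongr)
    refine h1.trans ?_
    calc (4 * U + 1) * (C * (Real.log (X + 1) + (U + 1) + 1))
        ≤ (4 * (1 + U)) * (C * (4 * Real.log X * (1 + U))) := by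
          apply mul_le_mul hU4 _ _ (by positivity)
          · exact mul_le_mul_of_nonneg_left hcA hC.le
          · have : 0 ≤ Real.log ((X : ℝ) + 1) := Real.log_nonneg (by linarith)
            positivity
      _ = _ := by ring
  have hXpow : (X : ℝ) ≤ 2 * (X : ℝ) ^ (1 - 1 / 16 * (σ - 1 / 2)) := by
    rw [sub_eq_add_neg, Real.rpow_add hX0, Real.rpow_one]
    have h1 : (1 / 2 : ℝ) ≤ (X : ℝ) ^ (-(1 / 16 * (σ - 1 / 2))) := by
      rw [Real.rpow_def_of_pos hX0]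
      have h2 : -(1 / 4 : ℝ) ≤ Real.log X * -(1 / 16 * (σ - 1 / 2)) := by nlinarith
      have h3 : (1 / 2 : ℝ) ≤ Real.exp (-(1 / 4)) := by
        have := Real.add_one_le_exp (-(1 / 4) : ℝ)
        linarith
      exact h3.trans (Real.exp_le_exp.2 h2)
    nlinarith
  calc ∑ d ∈ sqf X, ∑ ρ ∈ S d, ((analyticOrderAt (T.Lq d) ρ).toNat : ℝ)
      ≤ ∑ d ∈ sqf X, 16 * C * Real.log X * (1 + U) ^ 2 := sum_le_sum hd
    _ = ((sqf X).card : ℝ) * (16 * C * Real.log X * (1 + U) ^ 2) := by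
        rw [sum_const, nsmul_eq_mul]
    _ ≤ (3 * X) * (16 * C * Real.log X * (1 + U) ^ 2) := by
        apply mul_le_mul_of_nonneg_right (card_sqf' (by omega)) (by positivity)
    _ ≤ (3 * (2 * (X : ℝ) ^ (1 - 1 / 16 * (σ - 1 / 2)))) *
        (16 * C * Real.log X * (1 + U) ^ 2) := by
        apply mul_le_mul_of_nonneg_right _ (by positivity)
        linarith
    _ = _ := by ring

/-- the mean value argument -/
theorem mean_argH {Q : ℕ} {lam : ℕ → ℝ} (T : Twists Q lam) (C : ℝ) (hC : 0 < C)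
    (Z4 : ∀ (d : ℤ) (t : ℝ) (S : Finset ℂ), Squarefree d →
      (∀ ρ ∈ S, T.Lq d ρ = 0 ∧ 1 / 2 ≤ ρ.re ∧ |ρ.im - t| ≤ 1 / 4) →
      (∀ ρ ∈ S, analyticOrderAt (T.Lq d) ρ ≠ ⊤) ∧
      ∑ ρ ∈ S, ((analyticOrderAt (T.Lq d) ρ).toNat : ℝ) ≤
        C * (Real.log (|(d : ℝ)| + 1) + |t| + 1))
    (Z6a : ∀ (f : ℂ → ℂ) (ρ : ℂ) (r : ℝ) (_ : 0 < r)
      (_ : DifferentiableOn ℂ f (Metric.ball ρ (2 * r))),
      Real.pi * r ^ 2 * ‖f ρ‖ ≤ ∫ s in Metric.ball ρ r, ‖f s‖)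
    (Cm : ℝ) (Am B : ℕ) (hCm : 0 < Cm)
    (hmean : ∀ (X : ℕ) (δ U : ℝ) (s : ℂ), 3 ≤ X → 1 / Real.log X ≤ δ →
      δ ≤ 1 / 8 → 0 ≤ U → 1 / 2 + 3 * δ ≤ s.re → s.re ≤ 1 + δ → |s.im| ≤ U + 1 →
      ∑ d ∈ sqf X, ‖T.Lq d s * Mol Q lam (YY X) d s - 1‖ ≤
        Cm * (1 + U) ^ B * (X : ℝ) ^ (1 - δ / 4) * Real.log X ^ Am)
    (X : ℕ) (σ U : ℝ) (S : ℤ → Finset ℂ) (hX : 3 ≤ X) (hσ1 : σ ≤ 1) (hU : 0 ≤ U)
    (hσ2 : 4 ≤ (σ - 1 / 2) * Real.log X)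
    (hS : ∀ d ∈ sqf X, ∀ ρ ∈ S d, T.Lq d ρ = 0 ∧ (σ ≤ ρ.re ∧ ρ.re ≤ 1) ∧ |ρ.im| ≤ U) :
    ∑ d ∈ sqf X, ∑ ρ ∈ S d, ((analyticOrderAt (T.Lq d) ρ).toNat : ℝ) ≤
      36 * C * Cm * (1 + U) ^ (B + 3) * (X : ℝ) ^ (1 - 1 / 16 * (σ - 1 / 2)) *
        Real.log X ^ (Am + 3) := by
  classical
  obtain ⟨hL1, -⟩ := log_aux hX
  have hL0 : 0 < Real.log X := by linarith
  have hcA := count_auxH hX hU
  set δ : ℝ := (σ - 1 / 2) / 4 with hδ
  have hδL : 1 ≤ δ * Real.log X := by rw [hδ]; linarith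
  have hδ1 : 1 / Real.log X ≤ δ := by
    rw [div_le_iff₀ hL0]; exact hδL
  have hδ0 : 0 < δ := lt_of_lt_of_le (by positivity) hδ1
  have hδ8 : δ ≤ 1 / 8 := by rw [hδ]; linarith
  have hσδ : σ = 1 / 2 + 4 * δ := by rw [hδ]; ring
  set D : Set ℂ := Box (1 / 2 + 3 * δ) (1 + δ) (U + 1) with hD
  have hDc : IsCompact D := Box_compact _ _ _
  have hDm : MeasurableSet D := hDc.isClosed.measurableSet
  have hDsub : D ⊆ {s : ℂ | 1 / 4 < s.re} := by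
    intro s hs
    rw [hD, mem_Box] at hs
    show 1 / 4 < s.re
    linarith [hs.1.1]
  set M : ℝ := C * (Real.log (X + 1) + (U + 1) + 1) with hM
  have hM0 : 0 ≤ M := by
    have : 0 ≤ Real.log ((X : ℝ) + 1) := Real.log_nonneg (by
      have : (0 : ℝ) ≤ X := Nat.cast_nonneg _
      linarith)
    positivity
  have hint : ∀ d ∈ sqf X, IntegrableOn (fun s => ‖ff T (YY X) d s‖) D := by
    intro d hd
    apply ContinuousOn.integrableOn_compact hDc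
    exact ((ff_diff T (YY X) (mem_sqf.1 hd).2).continuousOn.mono hDsub).norm
  have key : ∀ d ∈ sqf X, Real.pi * δ ^ 2 * ∑ ρ ∈ S d, ((analyticOrderAt (T.Lq d) ρ).toNat : ℝ) ≤
      M * ∫ s in D, ‖ff T (YY X) d s‖ := by
    intro d hd
    have hsq := (mem_sqf.1 hd).2
    have hball : ∀ ρ ∈ S d, Metric.ball ρ δ ⊆ D := by
      intro ρ hρ s hs
      obtain ⟨-, ⟨h1, h2⟩, h3⟩ := hS d hd ρ hρ
      rw [mem_ball_iff_norm] at hs
      have h4 := abs_le.1 ((Complex.abs_re_le_norm (s - ρ)).trans hs.le)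
      have h5 := abs_le.1 ((Complex.abs_im_le_norm (s - ρ)).trans hs.le)
      rw [Complex.sub_re] at h4
      rw [Complex.sub_im] at h5
      rw [hD, mem_Box]
      have h6 := abs_le.1 h3
      refine ⟨⟨by linarith, by linarith⟩, abs_le.2 ⟨by linarith, by linarith⟩⟩
    have h1 := overlap (S d) (fun ρ => ((analyticOrderAt (T.Lq d) ρ).toNat : ℝ))
      (fun ρ => Metric.ball ρ δ) (fun ρ _ => measurableSet_ball) D hDm hball
      (fun s => ‖ff T (YY X) d s‖) (fun s _ => norm_nonneg _) (hint d hd) M (by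
        intro s hs
        rw [hD, mem_Box] at hs
        have e : ∑ ρ ∈ S d, (Metric.ball ρ δ).indicator
            (fun _ => ((analyticOrderAt (T.Lq d) ρ).toNat : ℝ)) s =
            ∑ ρ ∈ (S d).filter (fun ρ => s ∈ Metric.ball ρ δ),
              ((analyticOrderAt (T.Lq d) ρ).toNat : ℝ) := by
          rw [sum_filter]
          apply sum_congr rfl
          intro ρ _
          rw [Set.indicator_apply]
        rw [e]
        refine (Z4 d s.im _ hsq ?_).2.trans ?_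
        · intro ρ hρ
          rw [Finset.mem_filter] at hρ
          obtain ⟨g1, ⟨g2, g3⟩, g4⟩ := hS d hd ρ hρ.1
          have h5 := hρ.2
          rw [mem_ball_iff_norm] at h5
          have h6 := (Complex.abs_im_le_norm (s - ρ)).trans h5.le
          rw [Complex.sub_im, abs_sub_comm] at h6
          exact ⟨g1, by linarith, by linarith⟩
        · have := log_natAbs hd
          have := hs.2
          rw [hM]
          gcongr)
    refine le_trans ?_ h1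
    rw [mul_sum]
    apply sum_le_sum
    intro ρ hρ
    obtain ⟨g1, ⟨g2, g3⟩, g4⟩ := hS d hd ρ hρ
    have h2 := Z6a (ff T (YY X) d) ρ δ hδ0 ((ff_diff T (YY X) hsq).mono (by
      intro s hs
      rw [mem_ball_iff_norm] at hs
      have h4 := abs_le.1 ((Complex.abs_re_le_norm (s - ρ)).trans hs.le)
      rw [Complex.sub_re] at h4
      show 1 / 4 < s.re
      linarith))
    have h3 : ‖ff T (YY X) d ρ‖ = 1 := by
      unfold ff
      rw [g1, zero_mul, zero_sub, norm_neg, norm_one]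
    rw [h3, mul_one] at h2
    rw [mul_comm (Real.pi * δ ^ 2)]
    exact mul_le_mul_of_nonneg_left h2 (Nat.cast_nonneg _)
  set R : ℝ := Cm * (1 + U) ^ B * (X : ℝ) ^ (1 - δ / 4) * Real.log X ^ Am with hR
  have hR0 : 0 ≤ R := by positivity
  have hsum : ∑ d ∈ sqf X, ∫ s in D, ‖ff T (YY X) d s‖ ≤ R * (Real.pi * (U + 1 + 2) ^ 2) := by
    rw [← integral_finsetSum _ hint]
    have h1 : ‖∫ s in D, ∑ d ∈ sqf X, ‖ff T (YY X) d s‖‖ ≤ R * volume.real D := by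
      apply norm_setIntegral_le_of_norm_le_const hDc.measure_lt_top
      intro s hs
      rw [hD, mem_Box] at hs
      rw [Real.norm_of_nonneg (sum_nonneg fun _ _ => norm_nonneg _)]
      exact hmean X δ U s hX hδ1 hδ8 hU hs.1.1 hs.1.2 hs.2
    refine (le_abs_self _).trans (h1.trans ?_)
    apply mul_le_mul_of_nonneg_left _ hR0
    exact Box_vol (by linarith) (by linarith) (by linarith)
  have htot : Real.pi * δ ^ 2 * ∑ d ∈ sqf X, ∑ ρ ∈ S d, ((analyticOrderAt (T.Lq d) ρ).toNat : ℝ) ≤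
      M * (R * (Real.pi * (U + 1 + 2) ^ 2)) := by
    rw [mul_sum]
    refine (sum_le_sum key).trans ?_
    rw [← mul_sum]
    exact mul_le_mul_of_nonneg_left hsum hM0
  set N : ℝ := ∑ d ∈ sqf X, ∑ ρ ∈ S d, ((analyticOrderAt (T.Lq d) ρ).toNat : ℝ) with hN
  have hN0 : 0 ≤ N := sum_nonneg fun d _ => sum_nonneg fun ρ _ => Nat.cast_nonneg _
  have h1 : δ ^ 2 * N ≤ M * (R * (U + 3) ^ 2) := by
    have h2 : Real.pi * (δ ^ 2 * N) ≤ Real.pi * (M * (R * (U + 3) ^ 2)) := by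
      calc Real.pi * (δ ^ 2 * N) = Real.pi * δ ^ 2 * N := by ring
        _ ≤ _ := htot
        _ = _ := by ring
    exact le_of_mul_le_mul_left h2 Real.pi_pos
  have h2 : N ≤ Real.log X ^ 2 * (M * (R * (U + 3) ^ 2)) := by
    calc N ≤ (δ * Real.log X) ^ 2 * N := le_mul_of_one_le_left hN0 (one_le_pow₀ hδL)
      _ = Real.log X ^ 2 * (δ ^ 2 * N) := by ring
      _ ≤ _ := mul_le_mul_of_nonneg_left h1 (by positivity)
  have h3 : M ≤ C * (4 * Real.log X * (1 + U)) := mul_le_mul_of_nonneg_left hcA hC.le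
  have h4 : (U + 3) ^ 2 ≤ (3 * (1 + U)) ^ 2 := by
    apply pow_le_pow_left₀ (by linarith)
    linarith
  have e1 : 1 - δ / 4 = 1 - 1 / 16 * (σ - 1 / 2) := by rw [hδ]; ring
  calc N ≤ Real.log X ^ 2 * (M * (R * (U + 3) ^ 2)) := h2
    _ ≤ Real.log X ^ 2 * (C * (4 * Real.log X * (1 + U)) * (R * (3 * (1 + U)) ^ 2)) := by
        gcongr
    _ = 36 * C * Cm * ((1 + U) ^ (B + 3)) *
        (X : ℝ) ^ (1 - δ / 4) * Real.log X ^ (Am + 3) := by rw [hR]; ring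
    _ = _ := by rw [e1]

/-- HZ6 -/
theorem HZ6_of {Q : ℕ} {lam : ℕ → ℝ} (T : Twists Q lam)
    (HZ3 : ∃ (C : ℝ) (A B : ℕ), 0 < C ∧
      ∀ (X Y : ℕ) (σ t : ℝ), 3 ≤ X → 1 ≤ Y → (Y : ℝ) ^ 4 ≤ X → 1 / 2 ≤ σ → σ ≤ 1 →
        ∑ d ∈ sqf X, ∫ y : ℝ, ‖T.Lq d (σ + y * I)‖ * ‖Mol Q lam Y d (σ + y * I)‖ *
          Real.exp (-|y - t|) ≤ C * (1 + |t|) ^ B * X * Real.log X ^ A) :
    ∃ (C c : ℝ) (A B : ℕ), 0 < C ∧ 0 < c ∧
      ∀ (X : ℕ) (σ U : ℝ) (S : ℤ → Finset ℂ), 3 ≤ X → 1 / 2 ≤ σ → 0 ≤ U →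
        (∀ d ∈ sqf X, ∀ ρ ∈ S d, T.Lq d ρ = 0 ∧ σ ≤ ρ.re ∧ |ρ.im| ≤ U) →
        ∑ d ∈ sqf X, ∑ ρ ∈ S d, ((analyticOrderAt (T.Lq d) ρ).toNat : ℝ) ≤
          C * (1 + U) ^ B * (X : ℝ) ^ (1 - c * (σ - 1 / 2)) * Real.log X ^ A := by
  obtain ⟨Cm, Am, B, hCm, hmean⟩ := mean_boxH T (Pool.Agent.Y369.QTZ1.Z1 T)
    (Pool.Agent.Y203.QTZ2.Z2 Q lam T.hecke) HZ3
  obtain ⟨Z4a, C, hC, Z4b⟩ := Pool.Agent.Y500.QTZ4.Z4 T
  refine ⟨96 * C + 36 * C * Cm, 1 / 16, Am + 3, B + 3, by positivity, by norm_num, ?_⟩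
  intro X σ U S hX hσ hU hS
  obtain ⟨hL1, -⟩ := log_aux hX
  have hre : ∀ d ∈ sqf X, ∀ ρ ∈ S d, ρ.re ≤ 1 := by
    intro d hd ρ hρ
    by_contra h
    push Not at h
    exact Z4a d ρ (mem_sqf.1 hd).2 h (hS d hd ρ hρ).1
  have hCC : 0 < C * Cm := by positivity
  rcases le_or_gt ((σ - 1 / 2) * Real.log X) 4 with h4 | h4
  · refine (trivial_countH T C hC Z4b X σ U S hX hσ hU h4 hS).trans ?_
    have h1 : Real.log X ≤ Real.log X ^ (Am + 3) := le_self_pow₀ hL1 (by omega)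
    have h2 : (1 + U) ^ 2 ≤ (1 + U) ^ (B + 3) := pow_le_pow_right₀ (by linarith) (by omega)
    have h3 : 96 * C ≤ 96 * C + 36 * C * Cm := by nlinarith
    gcongr
  · rcases le_or_gt σ 1 with h5 | h5
    · refine (mean_argH T C hC Z4b Pool.Agent.Y203.QTZ6a.Z6a Cm Am B hCm hmean X σ U S hX h5 hU
        h4.le ?_).trans ?_
      · intro d hd ρ hρ
        obtain ⟨g1, g2, g3⟩ := hS d hd ρ hρ
        exact ⟨g1, ⟨g2, hre d hd ρ hρ⟩, g3⟩
      · have h3 : 36 * C * Cm ≤ 96 * C + 36 * C * Cm := by nlinarith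
        gcongr
    · have h6 : ∀ d ∈ sqf X, ∑ ρ ∈ S d, ((analyticOrderAt (T.Lq d) ρ).toNat : ℝ) = 0 := by
        intro d hd
        apply sum_eq_zero
        intro ρ hρ
        exact absurd ((hS d hd ρ hρ).2.1) (by linarith [hre d hd ρ hρ])
      rw [sum_eq_zero h6]
      positivity

end

end Pool.Agent.Y474.QTHZ6
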