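import Pool.Agent.Y19.QT.Forms

set_option autoImplicit false

/-!
Project QT, task Z6, part b: the trivial bound for the number of zeros, and a covering lemma.
-/

namespace Pool.Agent.Y474.QTZ6

open Complex MeasureTheory Finset
open Pool.Agent.Y19.QT
open Pool.Agent.H306R2.RZ (js Gk)

noncomputable section

theorem mem_sqf' {X : ℕ} {d : ℤ} : d ∈ sqf X ↔ (-(X : ℤ) ≤ d ∧ d ≤ X) ∧ Squarefree d := by
  unfold sqf
  rw [Finset.mem_filter, Finset.mem_Icc, Int.squarefree_natAbs]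

theorem card_sqf' {X : ℕ} (hX : 1 ≤ X) : ((sqf X).card : ℝ) ≤ 3 * X := by
  have h1 : (sqf X).card ≤ (Finset.Icc (-(X : ℤ)) X).card := card_filter_le _ _
  rw [Int.card_Icc] at h1
  have h2 : (sqf X).card ≤ 3 * X := by omega
  exact_mod_cast h2

/-- windows -/
theorem sum_windows (m : ℂ → ℝ) (B : ℝ) (U : ℝ) (hU : 0 ≤ U) (S : Finset ℂ)
    (hS : ∀ ρ ∈ S, |ρ.im| ≤ U)
    (hB : ∀ (t : ℝ) (S' : Finset ℂ), |t| ≤ U + 1 → S' ⊆ S → (∀ ρ ∈ S', |ρ.im - t| ≤ 1 / 4) →
      ∑ ρ ∈ S', m ρ ≤ B) :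
    ∑ ρ ∈ S, m ρ ≤ (4 * U + 1) * B := by
  classical
  set K : ℕ := ⌊4 * U⌋₊ with hK
  have hKle : (K : ℝ) ≤ 4 * U := Nat.floor_le (by linarith)
  have hmaps : ∀ ρ ∈ S, ⌊2 * (ρ.im + U)⌋₊ ∈ Finset.range (K + 1) := by
    intro ρ hρ
    have h1 := abs_le.1 (hS ρ hρ)
    rw [Finset.mem_range, Nat.lt_succ_iff]
    exact Nat.floor_le_floor (by linarith)
  rw [← sum_fiberwise_of_maps_to hmaps]
  have hB0 : 0 ≤ B := by
    have := hB 0 ∅ (by rw [abs_zero]; linarith) (Finset.empty_subset _) (by simp)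
    simpa using this
  calc ∑ k ∈ Finset.range (K + 1), ∑ ρ ∈ S with ⌊2 * (ρ.im + U)⌋₊ = k, m ρ
      ≤ ∑ k ∈ Finset.range (K + 1), B := by
        apply sum_le_sum
        intro k hk
        have hk1 : k ≤ K := Nat.lt_succ_iff.1 (Finset.mem_range.1 hk)
        have hk2 : (k : ℝ) ≤ 4 * U := (Nat.cast_le.2 hk1).trans hKle
        apply hB (-U + k / 2 + 1 / 4) _ _ (filter_subset _ _)
        · intro ρ hρ
          rw [Finset.mem_filter] at hρ
          have h1 := abs_le.1 (hS ρ hρ.1)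
          have h2 : (k : ℝ) ≤ 2 * (ρ.im + U) := by
            rw [← hρ.2]
            exact Nat.floor_le (by linarith)
          have h3 : 2 * (ρ.im + U) < k + 1 := by
            rw [← hρ.2]
            exact Nat.lt_floor_add_one _
          rw [abs_le]
          constructor <;> linarith
        · have : (0 : ℝ) ≤ k := Nat.cast_nonneg _
          rw [abs_le]
          constructor <;> linarith
    _ = (K + 1 : ℝ) * B := by rw [sum_const, Finset.card_range, nsmul_eq_mul]; push_cast; ring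
    _ ≤ (4 * U + 1) * B := by gcongr

theorem log_aux {X : ℕ} (hX : 3 ≤ X) : 1 ≤ Real.log X ∧ Real.log (X + 1) ≤ 2 * Real.log X := by
  have h1 : (3 : ℝ) ≤ X := by exact_mod_cast hX
  constructor
  · rw [Real.le_log_iff_exp_le (by linarith)]
    have := Real.exp_one_lt_d9
    linarith
  · calc Real.log (X + 1) ≤ Real.log ((X : ℝ) ^ 2) := by
          apply Real.log_le_log (by linarith)
          nlinarith
      _ = 2 * Real.log X := by rw [Real.log_pow]; norm_num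

theorem count_aux {X : ℕ} (hX : 3 ≤ X) {U : ℝ} (hU : 0 ≤ U) :
    Real.log (X + 1) + (U + 1) + 1 ≤ 4 * Real.log X * Real.exp U := by
  obtain ⟨h1, h2⟩ := log_aux hX
  have h3 : U + 1 ≤ Real.exp U := Real.add_one_le_exp U
  nlinarith [mul_nonneg hU (sub_nonneg.2 h1)]

theorem log_natAbs {X : ℕ} {d : ℤ} (hd : d ∈ sqf X) :
    Real.log (|(d : ℝ)| + 1) ≤ Real.log (X + 1) := by
  obtain ⟨⟨h1, h2⟩, -⟩ := mem_sqf'.1 hd
  apply Real.log_le_log (by positivity)
  have h3 : |(d : ℝ)| ≤ X := by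
    rw [abs_le]
    constructor
    · exact_mod_cast h1
    · exact_mod_cast h2
  linarith

/-- the trivial bound -/
theorem trivial_count {Q : ℕ} {lam : ℕ → ℝ} (T : Twists Q lam) (C : ℝ) (hC : 0 < C)
    (Z4 : ∀ (d : ℤ) (t : ℝ) (S : Finset ℂ), Squarefree d →
      (∀ ρ ∈ S, T.Lq d ρ = 0 ∧ 1 / 2 ≤ ρ.re ∧ |ρ.im - t| ≤ 1 / 4) →
      (∀ ρ ∈ S, analyticOrderAt (T.Lq d) ρ ≠ ⊤) ∧
      ∑ ρ ∈ S, ((analyticOrderAt (T.Lq d) ρ).toNat : ℝ) ≤
        C * (Real.log (|(d : ℝ)| + 1) + |t| + 1))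
    (X : ℕ) (σ U : ℝ) (S : ℤ → Finset ℂ) (hX : 3 ≤ X) (hσ : 1 / 2 ≤ σ) (hU : 0 ≤ U)
    (hσ2 : (σ - 1 / 2) * Real.log X ≤ 4)
    (hS : ∀ d ∈ sqf X, ∀ ρ ∈ S d, T.Lq d ρ = 0 ∧ σ ≤ ρ.re ∧ |ρ.im| ≤ U) :
    ∑ d ∈ sqf X, ∑ ρ ∈ S d, ((analyticOrderAt (T.Lq d) ρ).toNat : ℝ) ≤
      96 * C * Real.exp (2 * U) * (X : ℝ) ^ (1 - 1 / 16 * (σ - 1 / 2)) * Real.log X := by
  have hX3 : (3 : ℝ) ≤ X := by exact_mod_cast hX
  have hX0 : (0 : ℝ) < X := by linarith
  obtain ⟨hL1, -⟩ := log_aux hX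
  have hcA := count_aux hX hU
  have hU4 : 4 * U + 1 ≤ 4 * Real.exp U := by
    have := Real.add_one_le_exp U
    linarith
  have hd : ∀ d ∈ sqf X, ∑ ρ ∈ S d, ((analyticOrderAt (T.Lq d) ρ).toNat : ℝ) ≤
      16 * C * Real.log X * Real.exp (2 * U) := by
    intro d hd
    have h1 := sum_windows (fun ρ => ((analyticOrderAt (T.Lq d) ρ).toNat : ℝ))
      (C * (Real.log (X + 1) + (U + 1) + 1)) U hU (S d) (fun ρ hρ => (hS d hd ρ hρ).2.2) (by
        intro t S' ht hS' h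
        refine (Z4 d t S' (mem_sqf'.1 hd).2 ?_).2.trans ?_
        · intro ρ hρ
          have := hS d hd ρ (hS' hρ)
          exact ⟨this.1, hσ.trans this.2.1, h ρ hρ⟩
        · have := log_natAbs hd
          gcongr)
    refine h1.trans ?_
    calc (4 * U + 1) * (C * (Real.log (X + 1) + (U + 1) + 1))
        ≤ (4 * Real.exp U) * (C * (4 * Real.log X * Real.exp U)) := by
          apply mul_le_mul hU4 _ _ (by positivity)
          · exact mul_le_mul_of_nonneg_left hcA hC.le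
          · have : 0 ≤ Real.log ((X : ℝ) + 1) := Real.log_nonneg (by linarith)
            positivity
      _ = 16 * C * Real.log X * (Real.exp U * Real.exp U) := by ring
      _ = _ := by rw [← Real.exp_add]; congr 2; ring
  have hXpow : (X : ℝ) ≤ 2 * (X : ℝ) ^ (1 - 1 / 16 * (σ - 1 / 2)) := by
    rw [sub_eq_add_neg, Real.rpow_add hX0, Real.rpow_one]
    have h1 : (1 / 2 : ℝ) ≤ (X : ℝ) ^ (-(1 / 16 * (σ - 1 / 2))) := by
      rw [Real.rpow_def_of_pos hX0]
      have h2 : -(1 / 4 : ℝ) ≤ Real.log X * -(1 / 16 * (σ - 1 / 2)) := by nlinarith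
      have h3 : (1 / 2 : ℝ) ≤ Real.exp (-(1 / 4)) := by
        have := Real.add_one_le_exp (-(1 / 4) : ℝ)
        linarith
      exact h3.trans (Real.exp_le_exp.2 h2)
    nlinarith
  calc ∑ d ∈ sqf X, ∑ ρ ∈ S d, ((analyticOrderAt (T.Lq d) ρ).toNat : ℝ)
      ≤ ∑ d ∈ sqf X, 16 * C * Real.log X * Real.exp (2 * U) := sum_le_sum hd
    _ = ((sqf X).card : ℝ) * (16 * C * Real.log X * Real.exp (2 * U)) := by
        rw [sum_const, nsmul_eq_mul]
    _ ≤ (3 * X) * (16 * C * Real.log X * Real.exp (2 * U)) := by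
        apply mul_le_mul_of_nonneg_right (card_sqf' (by omega)) (by positivity)
    _ ≤ (3 * (2 * (X : ℝ) ^ (1 - 1 / 16 * (σ - 1 / 2)))) *
        (16 * C * Real.log X * Real.exp (2 * U)) := by
        apply mul_le_mul_of_nonneg_right _ (by positivity)
        linarith
    _ = _ := by ring

/-- bounded overlap -/
theorem overlap {ι : Type*} [DecidableEq ι] (S : Finset ι) (m : ι → ℝ)
    (B : ι → Set ℂ) (hBm : ∀ i ∈ S, MeasurableSet (B i)) (D : Set ℂ) (hD : MeasurableSet D)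
    (hBD : ∀ i ∈ S, B i ⊆ D) (g : ℂ → ℝ) (hg0 : ∀ s ∈ D, 0 ≤ g s) (hg : IntegrableOn g D) (M : ℝ)
    (hM : ∀ s ∈ D, ∑ i ∈ S, (B i).indicator (fun _ => m i) s ≤ M) :
    ∑ i ∈ S, m i * ∫ s in B i, g s ≤ M * ∫ s in D, g s := by
  have h1 : ∀ i ∈ S, m i * ∫ s in B i, g s = ∫ s in D, m i * (B i).indicator g s := by
    intro i hi
    rw [integral_const_mul, setIntegral_indicator (hBm i hi), Set.inter_eq_self_of_subset_right
      (hBD i hi)]
  have hint : ∀ i ∈ S, IntegrableOn (fun s => m i * (B i).indicator g s) D := by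
    intro i hi
    exact (IntegrableOn.indicator hg (hBm i hi)).const_mul _
  rw [sum_congr rfl h1, ← integral_finsetSum _ hint, ← integral_const_mul]
  apply setIntegral_mono_on _ (hg.const_mul _) hD
  · intro s hs
    calc ∑ i ∈ S, m i * (B i).indicator g s = (∑ i ∈ S, (B i).indicator (fun _ => m i) s) * g s := by
          rw [sum_mul]
          apply sum_congr rfl
          intro i _
          by_cases h : s ∈ B i
          · simp [h]
          · simp [h]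
      _ ≤ M * g s := mul_le_mul_of_nonneg_right (hM s hs) (hg0 s hs)
  · exact integrable_finsetSum _ hint

end

end Pool.Agent.Y474.QTZ6
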