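import Pool.Agent.Y474.QTZ6a
import Pool.Agent.Y474.QTZ6b

set_option autoImplicit false

/-!
Project QT, task Z6: the density theorem from Z1-Z4 and Z6a.
-/

namespace Pool.Agent.Y474.QTZ6

open Complex MeasureTheory Finset
open Pool.Agent.Y19.QT
open Pool.Agent.H306R2.RZ (js Gk)

noncomputable section

/-- `Lq · Mol - 1` -/
def ff {Q : ℕ} {lam : ℕ → ℝ} (T : Twists Q lam) (Y : ℕ) (d : ℤ) (s : ℂ) : ℂ :=
  T.Lq d s * Mol Q lam Y d s - 1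

theorem ff_diff {Q : ℕ} {lam : ℕ → ℝ} (T : Twists Q lam) (Y : ℕ) {d : ℤ} (hd : Squarefree d) :
    DifferentiableOn ℂ (ff T Y d) {s : ℂ | 1 / 4 < s.re} := by
  have h1 : DifferentiableOn ℂ (T.ell d) {s : ℂ | 1 / 4 < s.re} :=
    (Pool.Agent.Y703.QT8.T8a T d hd).1.differentiableOn
  have h2 := Pool.Agent.Y180.QT12b2.Ep_diff T hd
  have h3 : DifferentiableOn ℂ (Mol Q lam Y d) {s : ℂ | 1 / 4 < s.re} :=
    (Pool.Agent.Y180.QT12b2.Mol_diff Q lam Y d).differentiableOn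
  exact ((h1.mul h2).mul h3).sub_const 1

/-- the box -/
def Box (a b U : ℝ) : Set ℂ := Set.Icc a b ×ℂ Set.Icc (-U) U

theorem mem_Box {a b U : ℝ} {s : ℂ} : s ∈ Box a b U ↔ (a ≤ s.re ∧ s.re ≤ b) ∧ |s.im| ≤ U := by
  unfold Box
  rw [Complex.mem_reProdIm, Set.mem_Icc, Set.mem_Icc, abs_le]

theorem Box_compact (a b U : ℝ) : IsCompact (Box a b U) := by
  unfold Box
  exact IsCompact.reProdIm isCompact_Icc isCompact_Icc

theorem Box_vol {a b U : ℝ} (ha : 0 ≤ a) (hb : b ≤ 2) (hU : 0 ≤ U) :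
    volume.real (Box a b U) ≤ Real.pi * (U + 2) ^ 2 := by
  have h1 : Box a b U ⊆ Metric.closedBall (0 : ℂ) (U + 2) := by
    intro s hs
    rw [mem_Box] at hs
    rw [mem_closedBall_zero_iff]
    refine (Complex.norm_le_abs_re_add_abs_im s).trans ?_
    have : |s.re| ≤ 2 := abs_le.2 ⟨by linarith [hs.1.1], by linarith [hs.1.2]⟩
    linarith [hs.2]
  have h2 : volume.real (Box a b U) ≤ volume.real (Metric.closedBall (0 : ℂ) (U + 2)) :=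
    measureReal_mono h1 (by rw [Complex.volume_closedBall]; exact ENNReal.mul_ne_top (by simp) (by simp))
  refine h2.trans ?_
  rw [Measure.real, Complex.volume_closedBall, ENNReal.toReal_mul, ENNReal.toReal_pow,
    ENNReal.toReal_ofReal (by linarith)]
  simp only [ENNReal.coe_toReal, NNReal.coe_real_pi]
  exact le_of_eq (by ring)

/-- the mean value argument -/
theorem mean_arg {Q : ℕ} {lam : ℕ → ℝ} (T : Twists Q lam) (C : ℝ) (hC : 0 < C)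
    (Z4 : ∀ (d : ℤ) (t : ℝ) (S : Finset ℂ), Squarefree d →
      (∀ ρ ∈ S, T.Lq d ρ = 0 ∧ 1 / 2 ≤ ρ.re ∧ |ρ.im - t| ≤ 1 / 4) →
      (∀ ρ ∈ S, analyticOrderAt (T.Lq d) ρ ≠ ⊤) ∧
      ∑ ρ ∈ S, ((analyticOrderAt (T.Lq d) ρ).toNat : ℝ) ≤
        C * (Real.log (|(d : ℝ)| + 1) + |t| + 1))
    (Z6a : ∀ (f : ℂ → ℂ) (ρ : ℂ) (r : ℝ) (_ : 0 < r)
      (_ : DifferentiableOn ℂ f (Metric.ball ρ (2 * r))),
      Real.pi * r ^ 2 * ‖f ρ‖ ≤ ∫ s in Metric.ball ρ r, ‖f s‖)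
    (Cm : ℝ) (Am : ℕ) (hCm : 0 < Cm)
    (hmean : ∀ (X : ℕ) (δ U : ℝ) (s : ℂ), 3 ≤ X → 1 / Real.log X ≤ δ →
      δ ≤ 1 / 8 → 0 ≤ U → 1 / 2 + 3 * δ ≤ s.re → s.re ≤ 1 + δ → |s.im| ≤ U + 1 →
      ∑ d ∈ sqf X, ‖T.Lq d s * Mol Q lam (YY X) d s - 1‖ ≤
        Cm * Real.exp U * (X : ℝ) ^ (1 - δ / 4) * Real.log X ^ Am)
    (X : ℕ) (σ U : ℝ) (S : ℤ → Finset ℂ) (hX : 3 ≤ X) (hσ1 : σ ≤ 1) (hU : 0 ≤ U)
    (hσ2 : 4 ≤ (σ - 1 / 2) * Real.log X)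
    (hS : ∀ d ∈ sqf X, ∀ ρ ∈ S d, T.Lq d ρ = 0 ∧ (σ ≤ ρ.re ∧ ρ.re ≤ 1) ∧ |ρ.im| ≤ U) :
    ∑ d ∈ sqf X, ∑ ρ ∈ S d, ((analyticOrderAt (T.Lq d) ρ).toNat : ℝ) ≤
      36 * C * Cm * Real.exp (4 * U) * (X : ℝ) ^ (1 - 1 / 16 * (σ - 1 / 2)) *
        Real.log X ^ (Am + 3) := by
  classical
  obtain ⟨hL1, -⟩ := log_aux hX
  have hL0 : 0 < Real.log X := by linarith
  have hcA := count_aux hX hU
  set δ : ℝ := (σ - 1 / 2) / 4 with hδ
  have hδL : 1 ≤ δ * Real.log X := by rw [hδ]; linarith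
  have hδ1 : 1 / Real.log X ≤ δ := by
    rw [div_le_iff₀ hL0]; exact hδL
  have hδ0 : 0 < δ := lt_of_lt_of_le (by positivity) hδ1
  have hδ8 : δ ≤ 1 / 8 := by rw [hδ]; linarith
  have hσδ : σ = 1 / 2 + 4 * δ := by rw [hδ]; ring
  set D : Set ℂ := Box (1 / 2 + 3 * δ) (1 + δ) (U + 1) with hD
  have hDc : IsCompact D := Box_compact _ _ _
  have hDm : MeasurableSet D := hDc.isClosed.measurableSet
  have hDsub : D ⊆ {s : ℂ | 1 / 4 < s.re} := by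
    intro s hs
    rw [hD, mem_Box] at hs
    show 1 / 4 < s.re
    linarith [hs.1.1]
  set M : ℝ := C * (Real.log (X + 1) + (U + 1) + 1) with hM
  have hM0 : 0 ≤ M := by
    have : 0 ≤ Real.log ((X : ℝ) + 1) := Real.log_nonneg (by
      have : (0 : ℝ) ≤ X := Nat.cast_nonneg _
      linarith)
    positivity
  have hint : ∀ d ∈ sqf X, IntegrableOn (fun s => ‖ff T (YY X) d s‖) D := by
    intro d hd
    apply ContinuousOn.integrableOn_compact hDc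
    exact ((ff_diff T (YY X) (mem_sqf.1 hd).2).continuousOn.mono hDsub).norm
  have key : ∀ d ∈ sqf X, Real.pi * δ ^ 2 * ∑ ρ ∈ S d, ((analyticOrderAt (T.Lq d) ρ).toNat : ℝ) ≤
      M * ∫ s in D, ‖ff T (YY X) d s‖ := by
    intro d hd
    have hsq := (mem_sqf.1 hd).2
    have hball : ∀ ρ ∈ S d, Metric.ball ρ δ ⊆ D := by
      intro ρ hρ s hs
      obtain ⟨-, ⟨h1, h2⟩, h3⟩ := hS d hd ρ hρ
      rw [mem_ball_iff_norm] at hs
      have h4 := abs_le.1 ((Complex.abs_re_le_norm (s - ρ)).trans hs.le)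
      have h5 := abs_le.1 ((Complex.abs_im_le_norm (s - ρ)).trans hs.le)
      rw [Complex.sub_re] at h4
      rw [Complex.sub_im] at h5
      rw [hD, mem_Box]
      have h6 := abs_le.1 h3
      refine ⟨⟨by linarith, by linarith⟩, abs_le.2 ⟨by linarith, by linarith⟩⟩
    have h1 := overlap (S d) (fun ρ => ((analyticOrderAt (T.Lq d) ρ).toNat : ℝ))
      (fun ρ => Metric.ball ρ δ) (fun ρ _ => measurableSet_ball) D hDm hball
      (fun s => ‖ff T (YY X) d s‖) (fun s _ => norm_nonneg _) (hint d hd) M (by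
        intro s hs
        rw [hD, mem_Box] at hs
        have e : ∑ ρ ∈ S d, (Metric.ball ρ δ).indicator
            (fun _ => ((analyticOrderAt (T.Lq d) ρ).toNat : ℝ)) s =
            ∑ ρ ∈ (S d).filter (fun ρ => s ∈ Metric.ball ρ δ),
              ((analyticOrderAt (T.Lq d) ρ).toNat : ℝ) := by
          rw [sum_filter]
          apply sum_congr rfl
          intro ρ _
          rw [Set.indicator_apply]
        rw [e]
        refine (Z4 d s.im _ hsq ?_).2.trans ?_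
        · intro ρ hρ
          rw [Finset.mem_filter] at hρ
          obtain ⟨g1, ⟨g2, g3⟩, g4⟩ := hS d hd ρ hρ.1
          have h5 := hρ.2
          rw [mem_ball_iff_norm] at h5
          have h6 := (Complex.abs_im_le_norm (s - ρ)).trans h5.le
          rw [Complex.sub_im, abs_sub_comm] at h6
          exact ⟨g1, by linarith, by linarith⟩
        · have := log_natAbs hd
          have := hs.2
          rw [hM]
          gcongr)
    refine le_trans ?_ h1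
    rw [mul_sum]
    apply sum_le_sum
    intro ρ hρ
    obtain ⟨g1, ⟨g2, g3⟩, g4⟩ := hS d hd ρ hρ
    have h2 := Z6a (ff T (YY X) d) ρ δ hδ0 ((ff_diff T (YY X) hsq).mono (by
      intro s hs
      rw [mem_ball_iff_norm] at hs
      have h4 := abs_le.1 ((Complex.abs_re_le_norm (s - ρ)).trans hs.le)
      rw [Complex.sub_re] at h4
      show 1 / 4 < s.re
      linarith))
    have h3 : ‖ff T (YY X) d ρ‖ = 1 := by
      unfold ff
      rw [g1, zero_mul, zero_sub, norm_neg, norm_one]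
    rw [h3, mul_one] at h2
    rw [mul_comm (Real.pi * δ ^ 2)]
    exact mul_le_mul_of_nonneg_left h2 (Nat.cast_nonneg _)
  set R : ℝ := Cm * Real.exp U * (X : ℝ) ^ (1 - δ / 4) * Real.log X ^ Am with hR
  have hR0 : 0 ≤ R := by positivity
  have hsum : ∑ d ∈ sqf X, ∫ s in D, ‖ff T (YY X) d s‖ ≤ R * (Real.pi * (U + 1 + 2) ^ 2) := by
    rw [← integral_finsetSum _ hint]
    have h1 : ‖∫ s in D, ∑ d ∈ sqf X, ‖ff T (YY X) d s‖‖ ≤ R * volume.real D := by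
      apply norm_setIntegral_le_of_norm_le_const hDc.measure_lt_top
      intro s hs
      rw [hD, mem_Box] at hs
      rw [Real.norm_of_nonneg (sum_nonneg fun _ _ => norm_nonneg _)]
      exact hmean X δ U s hX hδ1 hδ8 hU hs.1.1 hs.1.2 hs.2
    refine (le_abs_self _).trans (h1.trans ?_)
    apply mul_le_mul_of_nonneg_left _ hR0
    exact Box_vol (by linarith) (by linarith) (by linarith)
  have htot : Real.pi * δ ^ 2 * ∑ d ∈ sqf X, ∑ ρ ∈ S d, ((analyticOrderAt (T.Lq d) ρ).toNat : ℝ) ≤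
      M * (R * (Real.pi * (U + 1 + 2) ^ 2)) := by
    rw [mul_sum]
    refine (sum_le_sum key).trans ?_
    rw [← mul_sum]
    exact mul_le_mul_of_nonneg_left hsum hM0
  set N : ℝ := ∑ d ∈ sqf X, ∑ ρ ∈ S d, ((analyticOrderAt (T.Lq d) ρ).toNat : ℝ) with hN
  have hN0 : 0 ≤ N := sum_nonneg fun d _ => sum_nonneg fun ρ _ => Nat.cast_nonneg _
  have h1 : δ ^ 2 * N ≤ M * (R * (U + 3) ^ 2) := by
    have h2 : Real.pi * (δ ^ 2 * N) ≤ Real.pi * (M * (R * (U + 3) ^ 2)) := by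
      calc Real.pi * (δ ^ 2 * N) = Real.pi * δ ^ 2 * N := by ring
        _ ≤ _ := htot
        _ = _ := by ring
    exact le_of_mul_le_mul_left h2 Real.pi_pos
  have h2 : N ≤ Real.log X ^ 2 * (M * (R * (U + 3) ^ 2)) := by
    calc N ≤ (δ * Real.log X) ^ 2 * N := le_mul_of_one_le_left hN0 (one_le_pow₀ hδL)
      _ = Real.log X ^ 2 * (δ ^ 2 * N) := by ring
      _ ≤ _ := mul_le_mul_of_nonneg_left h1 (by positivity)
  have h3 : M ≤ C * (4 * Real.log X * Real.exp U) := mul_le_mul_of_nonneg_left hcA hC.le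
  have h4 : (U + 3) ^ 2 ≤ (3 * Real.exp U) ^ 2 := by
    apply pow_le_pow_left₀ (by linarith)
    have := Real.add_one_le_exp U
    linarith
  have e1 : 1 - δ / 4 = 1 - 1 / 16 * (σ - 1 / 2) := by rw [hδ]; ring
  calc N ≤ Real.log X ^ 2 * (M * (R * (U + 3) ^ 2)) := h2
    _ ≤ Real.log X ^ 2 * (C * (4 * Real.log X * Real.exp U) * (R * (3 * Real.exp U) ^ 2)) := by
        gcongr
    _ = 36 * C * Cm * (Real.exp U * Real.exp U * Real.exp U * Real.exp U) *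
        (X : ℝ) ^ (1 - δ / 4) * Real.log X ^ (Am + 3) := by rw [hR]; ring
    _ = _ := by
        rw [← Real.exp_add, ← Real.exp_add, ← Real.exp_add, e1]
        congr 4
        ring

/-- Z6 -/
theorem Z6_of {Q : ℕ} {lam : ℕ → ℝ} (T : Twists Q lam)
    (Z1 : ∃ C : ℝ, 0 < C ∧
      ∀ (d : ℤ) (Y : ℕ) (Z σ η t : ℝ), Squarefree d → 1 ≤ Y → 1 ≤ Z → 1 / 2 ≤ σ → σ ≤ 1 →
        0 < η → η ≤ 1 / 4 →
        ‖T.Lq d (σ + η + t * I) * Mol Q lam Y d (σ + η + t * I) - 1‖ ≤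
          ‖∑' n : ℕ, if Y < n then ((cY Q lam Y n * js d n * Real.exp (-(n / Z)) : ℝ) : ℂ) *
            (n : ℂ) ^ (-(σ + η + t * I : ℂ)) else 0‖ + 1 / Z +
          C / η * Z ^ (-η) * ∫ y : ℝ, ‖T.Lq d (σ + y * I)‖ * ‖Mol Q lam Y d (σ + y * I)‖ *
            Real.exp (-|y - t|))
    (Z2 : ∃ (C : ℝ) (A : ℕ), 0 < C ∧
      ∀ (X Y : ℕ) (Z δ : ℝ) (s : ℂ), 3 ≤ X → 1 ≤ Y → (Y : ℝ) ^ 4 ≤ X → 1 ≤ Z → Z ^ 4 ≤ X →
        0 < δ → δ ≤ 1 / 4 → 1 / 2 + δ ≤ s.re →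
        ∑ d ∈ sqf X, ‖∑' n : ℕ, if Y < n then ((cY Q lam Y n * js d n * Real.exp (-(n / Z)) : ℝ) : ℂ) *
            (n : ℂ) ^ (-s) else 0‖ ^ 2 ≤
          C * X * (Y : ℝ) ^ (-δ) * (δ⁻¹) ^ A + C)
    (Z3 : ∃ (C : ℝ) (A : ℕ), 0 < C ∧
      ∀ (X Y : ℕ) (σ t : ℝ), 3 ≤ X → 1 ≤ Y → (Y : ℝ) ^ 4 ≤ X → 1 / 2 ≤ σ → σ ≤ 1 →
        ∑ d ∈ sqf X, ∫ y : ℝ, ‖T.Lq d (σ + y * I)‖ * ‖Mol Q lam Y d (σ + y * I)‖ *
          Real.exp (-|y - t|) ≤ C * Real.exp |t| * X * Real.log X ^ A)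
    (Z4 : (∀ (d : ℤ) (s : ℂ), Squarefree d → 1 < s.re → T.Lq d s ≠ 0) ∧
      ∃ C : ℝ, 0 < C ∧ ∀ (d : ℤ) (t : ℝ) (S : Finset ℂ), Squarefree d →
        (∀ ρ ∈ S, T.Lq d ρ = 0 ∧ 1 / 2 ≤ ρ.re ∧ |ρ.im - t| ≤ 1 / 4) →
        (∀ ρ ∈ S, analyticOrderAt (T.Lq d) ρ ≠ ⊤) ∧
        ∑ ρ ∈ S, ((analyticOrderAt (T.Lq d) ρ).toNat : ℝ) ≤
          C * (Real.log (|(d : ℝ)| + 1) + |t| + 1))
    (Z6a : ∀ (f : ℂ → ℂ) (ρ : ℂ) (r : ℝ) (_ : 0 < r)
      (_ : DifferentiableOn ℂ f (Metric.ball ρ (2 * r))),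
      Real.pi * r ^ 2 * ‖f ρ‖ ≤ ∫ s in Metric.ball ρ r, ‖f s‖) :
    ∃ (C c : ℝ) (A : ℕ), 0 < C ∧ 0 < c ∧
      ∀ (X : ℕ) (σ U : ℝ) (S : ℤ → Finset ℂ), 3 ≤ X → 1 / 2 ≤ σ → 0 ≤ U →
        (∀ d ∈ sqf X, ∀ ρ ∈ S d, T.Lq d ρ = 0 ∧ σ ≤ ρ.re ∧ |ρ.im| ≤ U) →
        ∑ d ∈ sqf X, ∑ ρ ∈ S d, ((analyticOrderAt (T.Lq d) ρ).toNat : ℝ) ≤
          C * Real.exp (C * U) * (X : ℝ) ^ (1 - c * (σ - 1 / 2)) * Real.log X ^ A := by
  obtain ⟨Cm, Am, hCm, hmean⟩ := mean_box T Z1 Z2 Z3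
  obtain ⟨Z4a, C, hC, Z4b⟩ := Z4
  refine ⟨96 * C + 36 * C * Cm + 4, 1 / 16, Am + 3, by positivity, by norm_num, ?_⟩
  intro X σ U S hX hσ hU hS
  obtain ⟨hL1, -⟩ := log_aux hX
  have hre : ∀ d ∈ sqf X, ∀ ρ ∈ S d, ρ.re ≤ 1 := by
    intro d hd ρ hρ
    by_contra h
    push Not at h
    exact Z4a d ρ (mem_sqf.1 hd).2 h (hS d hd ρ hρ).1
  have hCC : 0 < C * Cm := by positivity
  have hexp : ∀ a : ℝ, a ≤ 4 → Real.exp (a * U) ≤ Real.exp ((96 * C + 36 * C * Cm + 4) * U) := by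
    intro a ha
    apply Real.exp_le_exp.2
    apply mul_le_mul_of_nonneg_right _ hU
    nlinarith
  rcases le_or_gt ((σ - 1 / 2) * Real.log X) 4 with h4 | h4
  · refine (trivial_count T C hC Z4b X σ U S hX hσ hU h4 hS).trans ?_
    have h1 : Real.log X ≤ Real.log X ^ (Am + 3) := le_self_pow₀ hL1 (by omega)
    have h2 := hexp 2 (by norm_num)
    have h3 : 96 * C ≤ 96 * C + 36 * C * Cm + 4 := by nlinarith
    gcongr
  · rcases le_or_gt σ 1 with h5 | h5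
    · refine (mean_arg T C hC Z4b Z6a Cm Am hCm hmean X σ U S hX h5 hU h4.le ?_).trans ?_
      · intro d hd ρ hρ
        obtain ⟨g1, g2, g3⟩ := hS d hd ρ hρ
        exact ⟨g1, ⟨g2, hre d hd ρ hρ⟩, g3⟩
      · have h2 := hexp 4 le_rfl
        have h3 : 36 * C * Cm ≤ 96 * C + 36 * C * Cm + 4 := by nlinarith
        gcongr
    · have h6 : ∀ d ∈ sqf X, ∑ ρ ∈ S d, ((analyticOrderAt (T.Lq d) ρ).toNat : ℝ) = 0 := by
        intro d hd
        apply sum_eq_zero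
        intro ρ hρ
        exact absurd ((hS d hd ρ hρ).2.1) (by linarith [hre d hd ρ hρ])
      rw [sum_eq_zero h6]
      positivity

end

end Pool.Agent.Y474.QTZ6
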